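import Pool.Agent.H.MP_3eaa21_lc.C

set_option autoImplicit false

namespace Pool.Agent.Results.MP_3eaa21_lc.High

open Pool.Agent.Lib.helper21.PR Pool.Agent.H.MP_fa5791_lc Pool.Agent.H.MP_fa2eca_lc Filter Set Encodable Denumerable
open Nat.Partrec Nat.Partrec.Code Pool.Agent.Lib.helper21 Pool.Agent.H.MP_3eaa21_lc

attribute [local irreducible] Primrec Computable

theorem state : ∃ v : List Bool → ℕ → ℕ → ℕ, Primrec (fun z : List Bool × ℕ × ℕ => v z.1 z.2.1 z.2.2) ∧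
    (∀ x s t n, s ≤ t → v (pre x s) s n ≤ v (pre x t) t n) ∧ (∀ b t n, v b t n < 2 ^ n) ∧
      (∀ b c t n m, n ≤ m → v b t m ≤ v c t m → v b t n ≤ v c t n) ∧ ∀ W : List Bool → Prop, RI O W → ∃ n,
        (∀ x t, v (pre x t) t n % 2 = 1 → ∃ m ≤ t, W (pre x m)) ∧
          ∀ x m, W (pre x m) → ∀ᶠ t in atTop, v (pre x t) t n % 2 = 1 := by
  obtain ⟨v, v1, v2, v3⟩ : ∃ v : List Bool → ℕ → ℕ → ℕ, Primrec (fun z : List Bool × ℕ × ℕ => v z.1 z.2.1 z.2.2) ∧
      (∀ b t, v b t 0 = 0) ∧ ∀ b t e, v b t (e + 1) = 2 * v b t e +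
        if ∃ m < t + 1, (evaln t (ofNat Code e) (encode (b.take m))).isSome then 1 else 0 :=
    ⟨fun b t n => Nat.rec 0 (fun e a => 2 * a + if ∃ m < t + 1, (evaln t (ofNat Code e) (encode (b.take m))).isSome
      then 1 else 0) n, by fun_prop, fun _ _ => rfl, fun _ _ _ => rfl⟩
  have a0 : ∀ {s t e n}, s ≤ t → (evaln s e n).isSome → (evaln t e n).isSome := fun h k =>
    (Option.isSome_iff_exists.1 k).elim fun _ k => Option.isSome_iff_exists.2 ⟨_, evaln_mono h k⟩
  refine ⟨v, v1, fun x s t n h => ?_, fun b t n => ?_, fun b c t n m h => ?_, fun W h => ?_⟩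
  · induction n with
    | zero => simp [v2]
    | succ n ih =>
      rw [v3, v3]
      split_ifs with a b <;> try omega
      obtain ⟨m, a, c⟩ := a
      rw [pre_take _ (by omega)] at c
      exact (b ⟨m, by omega, by rw [pre_take _ (by omega)]; exact a0 h c⟩).elim
  · induction n with
    | zero => simp [v2]
    | succ n ih => rw [v3]; split_ifs <;> omega
  · induction h with
    | refl => exact id
    | step _ ih => exact fun k => ih (by rw [v3, v3] at k; split_ifs at k <;> omega)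
  · obtain ⟨c, hc⟩ := re_code (r_pw (ri_re h)).re
    refine ⟨encode c + 1, fun x t k => ?_, fun x m k => ?_⟩
    · rw [v3] at k
      split_ifs at k with a
      · obtain ⟨m, a, b⟩ := a
        rw [pre_take _ (by omega), ofNat_encode, Option.isSome_iff_exists] at b
        exact ⟨m, by omega, (hc _).2 (Part.dom_iff_mem.2 (b.imp fun _ => evaln_sound))⟩
      · omega
    · obtain ⟨t, k⟩ := evaln_complete.1 (Part.get_mem ((hc _).1 k))
      refine (eventually_ge_atTop (t + m)).mono fun u a => ?_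
      rw [v3, if_pos ⟨m, by omega, by
        rw [pre_take _ (by omega), ofNat_encode]; exact a0 (by omega) (Option.isSome_iff_exists.2 ⟨_, k⟩)⟩]
      omega

theorem run {w : List Bool → ℕ → ℕ} (h : Primrec fun z : List Bool × ℕ => w z.1 z.2) :
    ∃ (z : ℕ → ℕ → Bool) (p : ℕ → ℕ), CI O (fun a : ℕ × ℕ => z a.1 a.2) ∧ (∀ i n, i ≤ n → z i n = false) ∧ ∀ t,
      z (t + 1) t ∧ (∀ m ≤ t, pre (z (t + 1)) m = pre (z (p t)) m) ∧ p t ≤ t ∧ p t % 2 = 0 ∧
        ∀ i ≤ t, i % 2 = 0 → w (pre (z i) t) t ≤ w (pre (z (p t)) t) t := by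
  obtain ⟨π, p1, p2⟩ : ∃ π : List (List Bool) → ℕ → ℕ → List Bool, Primrec (fun z : List (List Bool) × ℕ × ℕ =>
    π z.1 z.2.1 z.2.2) ∧ ∀ l i t, π l i t = pre ((l.getD i []).getD · false) t :=
      ⟨_, by unfold pre; fun_prop, fun _ _ _ => rfl⟩
  obtain ⟨P, q1, q2⟩ := RI.choice (Y := O) (R := fun (z : ℕ × List (List Bool)) k => k ≤ z.1 ∧ k % 2 = 0 ∧
      ∀ i < z.1 + 1, i % 2 = 0 → w (π z.2 i z.1) z.1 ≤ w (π z.2 k z.1) z.1) (by fun_prop) fun z => by
    obtain ⟨k, a, b⟩ := ((Finset.range (z.1 + 1)).filter (· % 2 = 0)).exists_max_image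
      (fun i => w (π z.2 i z.1) z.1) ⟨0, by simp⟩
    simp only [Finset.mem_filter, Finset.mem_range, and_imp] at a b
    exact ⟨k, by omega, a.2, b⟩
  obtain ⟨g, g1, g2⟩ : ∃ g : List Bool → List Bool, Primrec g ∧ ∀ l, g l = l ++ [true] :=
    ⟨_, by fun_prop, fun _ => rfl⟩
  obtain ⟨f, f1, f2⟩ := ci_cov (f := fun s l => if s = 0 then [] else g (π l (P (s - 1, l)) (s - 1))) (by fun_prop)
  have e : ∀ t, ∀ i ≤ t, π ((List.range (t + 1)).map f) i t = pre ((f i).getD · false) t := fun t i k => by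
    simp [p2, Nat.lt_succ_of_le k]
  have f3 : ∀ t, f (t + 1) = pre ((f (P (t, (List.range (t + 1)).map f))).getD · false) t ++ [true] := fun t => by
    rw [f2, if_neg t.succ_ne_zero, g2, Nat.add_sub_cancel, e _ _ (q2 (t, _)).1]
  refine ⟨fun i n => (f i).getD n false, fun t => P (t, (List.range (t + 1)).map f), by fun_prop, fun i n k => ?_,
    fun t => ⟨by simp [f3, pre_len], fun m k => ML.pre_congr fun i a => ?_, (q2 (t, _)).1, (q2 (t, _)).2.1,
      fun i a b => by rw [← e t i a, ← e t _ (q2 (t, _)).1]; exact (q2 (t, _)).2.2 i (Nat.lt_succ_of_le a) b⟩⟩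
  · cases i
    · simp [f2 0]
    · exact List.getD_eq_default _ _ (by simpa [f3, pre_len])
  · beta_reduce
    rw [f3, List.getD_append _ _ _ _ (by rw [pre_len]; omega)]
    simp [pre, a.trans_le k]

theorem build {E : ℕ → Bool} (h1 : RE (E · = false)) (h2 : {n | E n}.Infinite)
    (h3 : ∀ W : ℕ → Prop, RE W → {n | E n ∧ W n}.Finite ∨ {n | E n ∧ ¬ W n}.Finite) :
    ∃ P, IsPi P ∧ FinStar P ∧ ¬ BoolStar P ∧ CI E (code (Ext P)) ∧ CI (code (Ext P)) E := by
  classical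
  obtain ⟨v, v1, v2, v3, v4, v5⟩ := state
  obtain ⟨z, p, z0, z1, hz⟩ := run (w := fun b t => v b t t) (by fun_prop)
  choose z2 z3 p1 p2 p3 using hz
  have tk : ∀ {x y : ℕ → Bool} {m n}, m ≤ n → pre x n = pre y n → pre x m = pre y m := fun h k => by
    rw [← pre_take _ h, k, pre_take _ h]
  have pt : ∀ {x y : ℕ → Bool} {m n}, m < n → pre x n = pre y n → x m = y m := fun {x y m n} h k => by
    simpa [pre, h] using congrArg (·[m]?) k
  have uq : ∀ {i j n}, i ≤ n → j ≤ n → pre (z i) n = pre (z j) n → i = j := by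
    have : ∀ {i j n}, j ≤ n → pre (z i) n = pre (z j) n → ¬ i < j := fun {i j n} a b c => by
      obtain ⟨t, rfl⟩ := Nat.exists_eq_add_one_of_ne_zero (n := j) (by omega)
      simpa [z1 i t (by omega), z2] using pt a b
    exact fun {_ _ _} a b c => (not_lt.1 (this a c.symm)).antisymm (not_lt.1 (this b c))
  have inj : z.Injective := fun i j e => uq (le_max_left i j) (le_max_right i j) (by rw [e])
  have anc : ∀ j n, ∃ k ≤ n, (k = j ∨ k % 2 = 0) ∧ pre (z j) n = pre (z k) n := fun j n => by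
    induction j using Nat.strong_induction_on with
    | _ j ih =>
      by_cases a : j ≤ n
      · exact ⟨j, a, .inl rfl, rfl⟩
      obtain ⟨t, rfl⟩ := Nat.exists_eq_add_one_of_ne_zero (n := j) (by omega)
      obtain ⟨k, b, c, d⟩ := ih _ (Nat.lt_succ_of_le (p1 t))
      exact ⟨k, b, .inr (c.elim (· ▸ p2 t) id), (z3 t n (by omega)).trans d⟩
  obtain ⟨C, hC⟩ : ∃ C : (ℕ → Bool) → Set (ℕ → Bool), ∀ S x, x ∈ C S ↔ ∀ n, ∃ i ≤ n, (i % 2 = 0 ∨ S (i / 2)) ∧
    pre x n = pre (z i) n := ⟨fun _ => {x | _}, fun _ _ => .rfl⟩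
  have c1 : ∀ {S i}, z i ∈ C S ↔ i % 2 = 0 ∨ S (i / 2) := fun {S i} => (hC _ _).trans ⟨fun a =>
    (a i).elim fun j b => uq le_rfl b.1 b.2.2 ▸ b.2.1, fun a n => (anc i n).imp fun k b =>
      ⟨b.1, b.2.1.elim (· ▸ a) .inl, b.2.2⟩⟩
  have c2 : ∀ {S x}, x ∈ C S → ∀ K, (∃ i ≤ K, x = z i) ∨ ∃ t ≥ K, pre x (t + 1) = pre (z (t + 1)) (t + 1) :=
    fun {S x} a K => by
      by_cases b : ∃ t ≥ K, x t
      · obtain ⟨t, b, c⟩ := b
        obtain ⟨i, d, -, e⟩ := (hC _ _).1 a (t + 1)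
        refine .inr ⟨t, b, d.eq_or_lt.elim (· ▸ e) fun d => ?_⟩
        simp [pt t.lt_succ_self e, z1 i t (by omega)] at c
      · obtain ⟨i, d, -, e⟩ := (hC _ _).1 a K
        exact .inl ⟨i, d, funext fun n => (lt_or_ge n K).elim (pt · e) fun f => by
          rw [z1 i n (d.trans f), Bool.eq_false_iff.2 fun g => b ⟨n, f, g⟩]⟩
  have c3 : ∀ {S S' x}, x ∈ C S → x ∉ C S' → ∃ i, x = z i := fun {S S' x} a b => by
    obtain ⟨n, b⟩ := not_forall.1 (mt (hC _ _).2 b)
    rcases c2 a n with ⟨i, -, c⟩ | ⟨t, c, d⟩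
    · exact ⟨i, c⟩
    · exact (b (((hC _ _).1 (c1.2 (.inl (p2 t))) n).imp fun i e => ⟨e.1, e.2.1, ((tk (Nat.le_succ_of_le c) d).trans
        (z3 t n c)).trans e.2.2⟩)).elim
  have c4 : ∀ {S σ}, σ ∈ Ext (C S) ↔ ∃ i < σ.length + 1, (i % 2 = 0 ∨ S (i / 2)) ∧ pre (z i) σ.length = σ :=
    ⟨fun ⟨x, a, b⟩ => ((hC _ _).1 a _).imp fun i c => ⟨Nat.lt_succ_of_le c.1, c.2.1, c.2.2.symm.trans b⟩,
      fun ⟨i, _, a, b⟩ => ⟨_, c1.2 a, b⟩⟩
  have c5 : ∀ S : ℕ → Bool, RI O (S · = false) → IsPi (C S) := fun S a => by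
    obtain ⟨X, x1, x2⟩ : ∃ X : ℕ → Prop, RI O X ∧ ∀ n, X n ↔ S n = false := ⟨_, a, fun _ => .rfl⟩
    refine (congrArg IsPi (Set.ext fun x => ?_)).mp (pi_of (W := fun σ => ∀ i < σ.length + 1,
      i % 2 ≠ 0 ∧ X (i / 2) ∨ pre (z i) σ.length ≠ σ) (RI.un (by fun_prop)))
    simp only [hC, mem_setOf, pre_len, x2, Nat.lt_succ_iff]
    exact forall_congr' fun n => by push Not; simp [eq_comm (a := pre x n), or_iff_not_imp_left]
  have p0 := c5 (fun _ => false) (RI.un (by fun_prop))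
  have pE := c5 E (i_re (r_pw h1)).un
  have sub : C (fun _ => false) ⊆ C E := fun x a => (hC _ _).2 fun n => ((hC _ _).1 a n).imp fun i b =>
    ⟨b.1, .inl (by simpa using b.2.1), b.2.2⟩
  have tri : ∀ Q, IsPi Q → Q ⊆ C E → Q.Finite ∨ (C (fun _ => false) \ Q).Finite ∧
      ((C E \ Q).Finite ∨ (Q \ C fun _ => false).Finite) := fun Q a b => by
    obtain ⟨T, t1, t2⟩ := a.ex
    obtain ⟨n, n1, n2⟩ := v5 (T · = false) (RI.un (by fun_prop))
    have u1 : ∀ t ≥ n, ∀ i ≤ t, i % 2 = 0 → v (pre (z i) t) t n ≤ v (pre (z (p t)) t) t n := fun t c i d e =>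
      v4 _ _ _ _ _ c (p3 t i d e)
    obtain ⟨θ, u2, -⟩ := stab (u := fun t => v (pre (z (p (n + t))) (n + t)) (n + t) n) (monotone_nat_of_le_succ
      fun t => (v2 _ _ _ _ (Nat.le_succ _)).trans (u1 _ (by omega) _ (Nat.le_succ_of_le (p1 _)) (p2 _)))
        fun t => v3 _ _ _
    obtain ⟨s, u2⟩ := eventually_atTop.1 u2
    replace u2 : ∀ t ≥ n + s, v (pre (z (p t)) t) t n = θ := fun t c => by
      simpa [show n + (t - n) = t by omega] using u2 (t - n) (by omega)
    by_cases d : θ % 2 = 1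
    · obtain ⟨L, l⟩ := ((finite_le_nat (n + s)).image fun i => sInf {m | T (pre (z i) m) = false}).bddAbove
      have : ∀ t ≥ n + s, ∃ m ≤ L, m ≤ t ∧ T (pre (z (t + 1)) m) = false := fun t => by
        induction t using Nat.strong_induction_on with
        | _ t ih =>
          intro c
          have := p1 t
          by_cases e : p t ≤ n + s
          · obtain ⟨m, f, g⟩ := n1 _ t (u2 t c ▸ d)
            have k := (Nat.sInf_le (s := {m | T (pre (z (p t)) m) = false}) g).trans f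
            exact ⟨_, l ⟨_, e, rfl⟩, k, z3 t _ k ▸ Nat.sInf_mem (s := {m | T (pre (z (p t)) m) = false}) ⟨m, g⟩⟩
          · obtain ⟨m, f, g, k⟩ := ih (p t - 1) (by omega) (by omega)
            rw [Nat.sub_add_cancel (by omega)] at k
            exact ⟨m, f, by omega, z3 t m (by omega) ▸ k⟩
      refine .inl (((finite_le_nat (n + s)).image z).subset fun x c => ?_)
      rcases c2 (b c) (n + s) with ⟨i, e, f⟩ | ⟨t, e, f⟩
      · exact ⟨i, e, f.symm⟩
      · obtain ⟨m, -, g, k⟩ := this t e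
        simp [← tk (Nat.le_succ_of_le g) f, (t2 x).1 c m] at k
    have key : ∀ x ∈ C E \ Q, x ∈ z '' Iic (n + s) ∨ ∃ k, E k ∧ x = z (2 * k + 1) := fun x c => by
      obtain ⟨m, e⟩ := not_forall.1 (mt (t2 x).2 c.2)
      obtain ⟨r, f⟩ := eventually_atTop.1 (n2 x m (by simpa using e))
      rcases c2 c.1 (r + (n + s)) with ⟨i, g, rfl⟩ | ⟨t, g, k⟩
      · refine or_iff_not_imp_left.2 fun k => ?_
        obtain ⟨t, rfl⟩ := Nat.exists_eq_add_one_of_ne_zero (n := i) fun l => k ⟨i, by simp [l], rfl⟩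
        have l : n + s ≤ t := not_lt.1 fun l => k ⟨_, l, rfl⟩
        have : (t + 1) % 2 ≠ 0 := fun o => by
          have := f (r + (n + s)) (by omega)
          have := u1 (r + (n + s)) (by omega) _ g o
          have := v2 (z (t + 1)) t (r + (n + s)) n (by omega)
          rw [z3 t t le_rfl, u2 t l] at this
          have := u2 (r + (n + s)) (by omega)
          omega
        exact ⟨_, (c1.1 c.1).resolve_left this, congrArg z (by omega)⟩
      · have := f t (by omega)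
        rw [tk t.le_succ k, z3 t t le_rfl, u2 t (by omega)] at this
        exact (d this).elim
    have fi := (finite_Iic (n + s)).image z
    refine .inr ⟨fi.subset fun x c => (key x ⟨sub c.1, c.2⟩).resolve_right ?_, (h3 (fun k => ∃ m,
      T (pre (z (2 * k + 1)) m) = false) (ri_re (RI.un (by fun_prop)))).imp (fun e => (fi.union (e.image
        fun k => z (2 * k + 1))).subset fun x c => (key x c).imp_right ?_) fun e => (e.image fun k =>
          z (2 * k + 1)).subset fun x c => ?_⟩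
    · rintro ⟨k, -, rfl⟩
      simpa using c1.1 c.1
    · rintro ⟨k, f, rfl⟩
      exact ⟨k, ⟨f, by simpa [t2] using c.2⟩, rfl⟩
    · obtain ⟨i, rfl⟩ := c3 (b c.1) c.2
      have o : i % 2 ≠ 0 := fun o => c.2 (c1.2 (.inl o))
      have e : 2 * (i / 2) + 1 = i := by omega
      exact ⟨i / 2, ⟨(c1.1 (b c.1)).resolve_left o, by simpa [e, t2] using c.1⟩, congrArg z e⟩
  have i0 : (C fun _ => false).Infinite := infinite_of_injective_forall_mem (f := fun k => z (2 * k))
    (fun a b e => by have := inj e; omega) fun k => c1.2 (.inl (by omega))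
  have o : ∀ k, (2 * k + 1) / 2 = k := fun k => by omega
  refine ⟨C E, pE, ⟨{∅, C fun _ => false, C E}, toFinite _, fun Q a b => ?_⟩, fun a => ?_, ?_, ?_⟩
  · rcases tri Q a b with c | ⟨c, d | d⟩
    exacts [⟨∅, by simp, by simpa [symmDiff_def] using c⟩, ⟨C E, by simp, by simpa [symmDiff_def, diff_eq_empty.2 b] using d⟩,
      ⟨C fun _ => false, by simp, d.union c⟩]
  · obtain ⟨R, a, b, c, d⟩ := a _ p0 sub
    rcases tri R a b with e | ⟨e, -⟩
    · exact infinite_of_injOn_mapsTo (f := fun k => z (2 * k + 1)) (fun a _ b _ e => by have := inj e; omega)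
        (fun k f => or_iff_not_imp_right.2 fun g => ⟨c1.2 (.inr (by rwa [o])), not_or.2 ⟨by simp [c1], g⟩⟩) h2
          (d.union e)
    · exact i0 ((c.union e).subset (inter_union_diff _ R).ge)
  · obtain ⟨q, q1, q2⟩ : ∃ q : ℕ → List Bool, Primrec q ∧ ∀ x, q (encode x) = x :=
      ⟨fun n => (decode n).getD [], by fun_prop, by simp⟩
    have := ci_self E
    have : CI E _ := z0.trans ci_O
    refine CI.of_eq (f := fun n => cd (encode (q n) = n ∧ ∃ i < (q n).length + 1, (i % 2 = 0 ∨ E (i / 2)) ∧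
      pre (z i) (q n).length = q n)) (by fun_prop) fun n => ?_
    rw [Bool.eq_iff_iff, cd_true, ← c4, code, decide_eq_true_iff]
    exact ⟨fun a => ⟨_, a.2, a.1⟩, by rintro ⟨σ, a, rfl⟩; simpa [q2] using a⟩
  · have := ci_self (code (Ext (C E)))
    have : CI (code (Ext (C E))) _ := z0.trans ci_O
    refine CI.of_eq (f := fun k => code (Ext (C E)) (encode (pre (z (2 * k + 1)) (2 * k + 1)))) (by fun_prop)
      fun k => ?_
    rw [Bool.eq_iff_iff, code_iff, c4, pre_len]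
    exact ⟨fun ⟨i, a, b, c⟩ => by simpa [uq (Nat.le_of_lt_succ a) le_rfl c, o] using b,
      fun a => ⟨_, Nat.lt_succ_self _, .inr (by rwa [o]), rfl⟩⟩

/-- The degrees in question are exactly the high c.e. degrees. -/
theorem result (A : ℕ → Bool) : (∃ P, IsPi P ∧ FinStar P ∧ ¬ BoolStar P ∧
    TuringEquivalent (Fn.orc (code (Ext P))) (Fn.orc A)) ↔ (∃ W : ℕ → Bool, REPred (W · = true) ∧
      TuringEquivalent (Fn.orc W) (Fn.orc A)) ∧ TuringReducible (Fn.orc (J (J O))) (Fn.orc (J A)) := by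
  classical
  refine ⟨fun ⟨P, a, b, c, d⟩ => ⟨⟨fun n => !code (Ext P) n, ?_, ?_, ?_⟩, ((high_of a b c).trans
    (J_mono (.of_orc d.1))).orc⟩, fun ⟨⟨W, a, b⟩, c⟩ => ?_⟩
  · obtain ⟨X, x1, x2⟩ : ∃ X : List Bool → Prop, RI O X ∧ ∀ σ, X σ ↔ σ ∉ Ext P := ⟨_, a.ext, fun _ => .rfl⟩
    obtain ⟨q, q1, q2⟩ : ∃ q : ℕ → List Bool, Primrec q ∧ ∀ x, q (encode x) = x :=
      ⟨fun n => (decode n).getD [], by fun_prop, by simp⟩
    refine (r_pw (ri_re ((RI.un (p := fun n => encode (q n) ≠ n ∨ X (q n)) (by fun_prop)).of_eq fun n => ?_))).re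
    rw [x2, ← not_and_or, Bool.not_eq_true', ← Bool.not_eq_true, code, decide_eq_true_iff]
    exact not_congr ⟨fun a => ⟨_, a.2, a.1⟩, by rintro ⟨σ, a, rfl⟩; simpa [q2] using a⟩
  · exact (ci_comp (ci_prim Primrec.not) (.of_orc d.1)).orc
  · exact ((CI.of_orc d.2).trans ((ci_comp (ci_prim Primrec.not) (ci_self _)).of_eq fun n => Bool.not_not _)).orc
  · obtain ⟨E, e1, e2, e3, e4, e5⟩ := martin (.un a) ((CI.of_orc c).trans (J_mono (.of_orc b.2)))
    obtain ⟨P, p1, p2, p3, p4, p5⟩ := build e1 e4 e5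
    exact ⟨P, p1, p2, p3, ((p4.trans e2).trans (.of_orc b.1)).orc, (((CI.of_orc b.2).trans e3).trans p5).orc⟩

end Pool.Agent.Results.MP_3eaa21_lc.High
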